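import Mathlib

/-!
# The number of the Lagrangian subspaces of a symplectic space over the field with two elements

Project GK (helper869), by helper814. The frames (bases of Lagrangian subspaces) are counted.
-/

set_option autoImplicit false

namespace Pool.Agent.N814.GK

open Module

section lag

variable {X : Type} [AddCommGroup X] [Module (ZMod 2) X] [Finite X]
  (B : LinearMap.BilinForm (ZMod 2) X)

/-- isotropic frames -/
abbrev Fr (k : ℕ) : Type :=
  {s : Fin k → X // LinearIndependent (ZMod 2) s ∧ ∀ i j, B (s i) (s j) = 0}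

/-- the next vector of a frame -/
abbrev Nx {k : ℕ} (s : Fin k → X) : Type :=
  {x : X // (∀ i, B (s i) x = 0) ∧ x ∉ Submodule.span (ZMod 2) (Set.range s)}

variable {B}

/-- frames are extended by one vector -/
noncomputable def frEquiv (hB : B.IsAlt) (k : ℕ) : Fr B (k + 1) ≃ Σ s : Fr B k, Nx B s.1 where
  toFun s := ⟨⟨Fin.tail s.1, by
    obtain ⟨s, hs, h0⟩ := s
    rw [← Fin.cons_self_tail s, linearIndependent_finCons] at hs
    exact ⟨hs.1, fun i j => h0 i.succ j.succ⟩⟩, ⟨s.1 0, by
    obtain ⟨s, hs, h0⟩ := s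
    rw [← Fin.cons_self_tail s, linearIndependent_finCons] at hs
    exact ⟨fun i => h0 i.succ 0, hs.2⟩⟩⟩
  invFun p := ⟨Fin.cons p.2.1 p.1.1, by
    obtain ⟨⟨s, hs, h0⟩, x, hx, hxs⟩ := p
    refine ⟨linearIndependent_finCons.2 ⟨hs, hxs⟩, fun i j => ?_⟩
    refine Fin.cases ?_ (fun i => ?_) i
    · refine Fin.cases ?_ (fun j => ?_) j
      · exact hB.self_eq_zero x
      · simp only [Fin.cons_zero, Fin.cons_succ]
        rw [← hB.neg_eq, hx j, neg_zero]
    · refine Fin.cases ?_ (fun j => ?_) j
      · simp only [Fin.cons_zero, Fin.cons_succ]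
        exact hx i
      · simp only [Fin.cons_succ]
        exact h0 i j⟩
  left_inv s := by
    apply Subtype.ext
    exact Fin.cons_self_tail s.1
  right_inv p := by
    obtain ⟨⟨s, hs, h0⟩, x, hx, hxs⟩ := p
    rfl

omit [Finite X] in
lemma span_le_orth {k : ℕ} {s : Fin k → X} (h0 : ∀ i j, B (s i) (s j) = 0) :
    ∀ a ∈ Submodule.span (ZMod 2) (Set.range s), ∀ b ∈ Submodule.span (ZMod 2) (Set.range s),
      B a b = 0 := by
  intro a ha b hb
  induction ha using Submodule.span_induction with
  | mem a ha =>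
    obtain ⟨i, rfl⟩ := ha
    induction hb using Submodule.span_induction with
    | mem b hb =>
      obtain ⟨j, rfl⟩ := hb
      exact h0 i j
    | zero => rw [map_zero]
    | add b c _ _ h1 h2 => rw [map_add, h1, h2, add_zero]
    | smul r b _ h1 => rw [map_smul, h1, smul_zero]
  | zero => rw [map_zero, LinearMap.zero_apply]
  | add a c _ _ h1 h2 => rw [map_add, LinearMap.add_apply, h1, h2, add_zero]
  | smul r a _ h1 => rw [map_smul, LinearMap.smul_apply, h1, smul_zero]

lemma card_nx (hn : B.Nondegenerate) {k : ℕ} (s : Fr B k) :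
    Nat.card (Nx B s.1) = 2 ^ (finrank (ZMod 2) X - k) - 2 ^ k := by
  classical
  obtain ⟨s, hs, h0⟩ := s
  have := Fintype.ofFinite X
  have hfin : Module.Finite (ZMod 2) X := Module.Finite.of_finite
  set W := Submodule.span (ZMod 2) (Set.range s) with hW
  have hWr : finrank (ZMod 2) W = k := by
    rw [hW, finrank_span_eq_card hs, Fintype.card_fin]
  have hO := LinearMap.BilinForm.finrank_orthogonal hn W
  rw [hWr] at hO
  have hmem : ∀ x : X, (∀ i, B (s i) x = 0) ↔ x ∈ B.orthogonal W := by
    intro x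
    rw [LinearMap.BilinForm.mem_orthogonal_iff]
    constructor
    · intro h a ha
      induction ha using Submodule.span_induction with
      | mem a ha =>
        obtain ⟨i, rfl⟩ := ha
        exact h i
      | zero => rw [map_zero, LinearMap.zero_apply]
      | add a c _ _ h1 h2 =>
        rw [map_add, LinearMap.add_apply, h1, h2, add_zero]
      | smul r a _ h1 =>
        rw [map_smul, LinearMap.smul_apply, h1, smul_zero]
    · intro h i
      exact h _ (Submodule.subset_span ⟨i, rfl⟩)
  have hle : W ≤ B.orthogonal W := by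
    intro b hb
    rw [← hmem]
    intro i
    exact span_le_orth h0 _ (Submodule.subset_span ⟨i, rfl⟩) _ hb
  have e1 : Nat.card (Nx B s) = ((B.orthogonal W : Set X) \ (W : Set X)).ncard := by
    rw [← Nat.card_coe_set_eq]
    refine Nat.card_congr (Equiv.subtypeEquivRight fun x => ?_)
    rw [hmem, ← hW]
    rfl
  rw [e1, Set.ncard_sdiff (by exact_mod_cast hle) (Set.toFinite _), ← Nat.card_coe_set_eq,
    ← Nat.card_coe_set_eq]
  have c1 : Nat.card (B.orthogonal W : Set X) = 2 ^ (finrank (ZMod 2) X - k) := by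
    have := Module.natCard_eq_pow_finrank (K := ZMod 2) (V := B.orthogonal W)
    rw [Nat.card_zmod, hO] at this
    exact this
  have c2 : Nat.card (W : Set X) = 2 ^ k := by
    have := Module.natCard_eq_pow_finrank (K := ZMod 2) (V := W)
    rw [Nat.card_zmod, hWr] at this
    exact this
  rw [c1, c2]

lemma card_fr (hB : B.IsAlt) (hn : B.Nondegenerate) (k : ℕ) :
    Nat.card (Fr B k) = ∏ i ∈ Finset.range k, (2 ^ (finrank (ZMod 2) X - i) - 2 ^ i) := by
  classical
  have := Fintype.ofFinite X
  induction k with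
  | zero =>
    rw [Finset.prod_range_zero, Nat.card_eq_one_iff_unique]
    refine ⟨⟨fun a b => Subtype.ext (funext fun i => i.elim0)⟩,
      ⟨⟨fun i => i.elim0, linearIndependent_empty_type, fun i => i.elim0⟩⟩⟩
  | succ k ih =>
    rw [Nat.card_congr (frEquiv hB k), Nat.card_sigma, Finset.sum_congr rfl
      (fun s _ => card_nx hn s), Finset.sum_const, Finset.card_univ, smul_eq_mul,
      Finset.prod_range_succ, ← ih, Nat.card_eq_fintype_card]

/-- Lagrangian subspaces -/
abbrev Lag (B : LinearMap.BilinForm (ZMod 2) X) (m : ℕ) : Type :=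
  {W : Submodule (ZMod 2) X // finrank (ZMod 2) W = m ∧ ∀ a ∈ W, ∀ b ∈ W, B a b = 0}

/-- the space spanned by a frame -/
noncomputable def sp (m : ℕ) (s : Fr B m) : Lag B m :=
  ⟨Submodule.span (ZMod 2) (Set.range s.1), by
    rw [finrank_span_eq_card s.2.1, Fintype.card_fin], span_le_orth s.2.2⟩

/-- the bases of a Lagrangian subspace -/
noncomputable def fibEquiv (m : ℕ) (W : Lag B m) :
    {s : Fr B m // sp m s = W} ≃ {s : Fin m → W.1 // LinearIndependent (ZMod 2) s} where
  toFun s := ⟨fun i => ⟨s.1.1 i, by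
    have h := congrArg Subtype.val s.2
    rw [← h]
    exact Submodule.subset_span ⟨i, rfl⟩⟩, by
    refine LinearIndependent.of_comp W.1.subtype ?_
    exact s.1.2.1⟩
  invFun s := ⟨⟨fun i => (s.1 i : X), by
    refine ⟨s.2.map' W.1.subtype (Submodule.ker_subtype _), fun i j => ?_⟩
    exact W.2.2 _ (s.1 i).2 _ (s.1 j).2⟩, by
    apply Subtype.ext
    have hl : LinearIndependent (ZMod 2) fun i => (s.1 i : X) :=
      s.2.map' W.1.subtype (Submodule.ker_subtype _)
    have hfin : Module.Finite (ZMod 2) X := Module.Finite.of_finite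
    refine Submodule.eq_of_le_of_finrank_eq ?_ ?_
    · change Submodule.span (ZMod 2) (Set.range fun i => (s.1 i : X)) ≤ W.1
      rw [Submodule.span_le]
      rintro _ ⟨i, rfl⟩
      exact (s.1 i).2
    · change finrank (ZMod 2) (Submodule.span (ZMod 2) (Set.range fun i => (s.1 i : X))) = _
      rw [finrank_span_eq_card hl, Fintype.card_fin, W.2.1]⟩
  left_inv s := rfl
  right_inv s := rfl

/-- **The number of the Lagrangian subspaces.** -/
theorem card_lag (hB : B.IsAlt) (hn : B.Nondegenerate) (m : ℕ)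
    (hm : finrank (ZMod 2) X = 2 * m) :
    Nat.card (Lag B m) = ∏ i ∈ Finset.range m, (2 ^ (i + 1) + 1) := by
  classical
  have := Fintype.ofFinite X
  have hfs : Finite (Submodule (ZMod 2) X) := by
    refine Finite.of_injective (fun W : Submodule (ZMod 2) X => (W : Set X)) ?_
    exact SetLike.coe_injective
  have := Fintype.ofFinite (Lag B m)
  have := Fintype.ofFinite (Fr B m)
  have h1 : Nat.card (Fr B m) = Nat.card (Lag B m) * ∏ i ∈ Finset.range m, (2 ^ m - 2 ^ i) := by
    rw [← Nat.card_congr (Equiv.sigmaFiberEquiv (sp (B := B) m)), Nat.card_sigma]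
    rw [Finset.sum_congr rfl (g := fun _ => ∏ i ∈ Finset.range m, (2 ^ m - 2 ^ i))]
    · rw [Finset.sum_const, Finset.card_univ, smul_eq_mul, Nat.card_eq_fintype_card]
    · intro W _
      rw [Nat.card_congr (fibEquiv m W)]
      have h2 := card_linearIndependent (K := ZMod 2) (V := W.1) (k := m) (by rw [W.2.1])
      rw [h2, W.2.1, ZMod.card, Finset.prod_range]
  rw [card_fr hB hn m, hm] at h1
  have h2 : ∏ i ∈ Finset.range m, (2 ^ (2 * m - i) - 2 ^ i) =
      (∏ i ∈ Finset.range m, (2 ^ (m - i) + 1)) * ∏ i ∈ Finset.range m, (2 ^ m - 2 ^ i) := by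
    rw [← Finset.prod_mul_distrib]
    refine Finset.prod_congr rfl fun i hi => ?_
    have hi' : i < m := Finset.mem_range.1 hi
    obtain ⟨j, rfl⟩ := Nat.exists_eq_add_of_le hi'.le
    have e1 : 2 * (i + j) - i = i + j + j := by omega
    have e2 : i + j - i = j := by omega
    rw [e1, e2]
    have h3 : 2 ^ i ≤ 2 ^ (i + j) := Nat.pow_le_pow_right (by norm_num) (by omega)
    have h4 : 2 ^ i ≤ 2 ^ (i + j + j) := Nat.pow_le_pow_right (by norm_num) (by omega)
    zify [h3, h4]
    ring
  rw [h2] at h1
  have h5 : 0 < ∏ i ∈ Finset.range m, (2 ^ m - 2 ^ i) := by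
    refine Finset.prod_pos fun i hi => ?_
    have : 2 ^ i < 2 ^ m := Nat.pow_lt_pow_right (by norm_num) (Finset.mem_range.1 hi)
    omega
  have h6 := Nat.eq_of_mul_eq_mul_right h5 h1
  rw [← h6, ← Finset.prod_range_reflect]
  refine Finset.prod_congr rfl fun i hi => ?_
  have hi' : i < m := Finset.mem_range.1 hi
  congr 2
  omega

end lag

end Pool.Agent.N814.GK
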