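import Pool.Agent.N869.GK.L.Stm
import Pool.Agent.N814.GK.Lag

/-!
# Project GK (helper869), GK-COUNT: the number of the stable sets

By helper814. The stable maximal unlinked sets that contain `0` are the squares of the Lagrangian
subspaces; the group of all decorations acts by translations.
-/

set_option autoImplicit false
set_option linter.unusedVariables false
set_option linter.unusedSectionVars false

open scoped Classical

namespace Pool.Agent.N814.GK

open Finset
open Pool.Agent.N869.GK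

variable {ι : Type} [Fintype ι]

/-- the symplectic space -/
abbrev XX (ι : Type) : Type := ι → ZMod 2 × ZMod 2

/-- the components -/
def cmp (c : Fin 2) (η : Dc ι) : XX ι := fun x => ((η x).1 c, (η x).2 c)

/-- a decoration from its components -/
def mkD (a b : XX ι) : Dc ι := fun x => (![(a x).1, (b x).1], ![(a x).2, (b x).2])

lemma cmp_mkD0 (a b : XX ι) : cmp 0 (mkD a b) = a := rfl

lemma cmp_mkD1 (a b : XX ι) : cmp 1 (mkD a b) = b := rfl

lemma mkD_cmp (η : Dc ι) : mkD (cmp 0 η) (cmp 1 η) = η := by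
  funext x
  refine Prod.ext ?_ ?_
  · funext c
    fin_cases c <;> rfl
  · funext c
    fin_cases c <;> rfl

lemma cmp_add (c : Fin 2) (η η' : Dc ι) : cmp c (η + η') = cmp c η + cmp c η' := rfl

lemma mkD_add (a b a' b' : XX ι) : mkD a b + mkD a' b' = mkD (a + a') (b + b') := by
  rw [← mkD_cmp (mkD a b + mkD a' b'), cmp_add, cmp_add, cmp_mkD0, cmp_mkD0, cmp_mkD1, cmp_mkD1]

lemma mkD_zero : mkD (0 : XX ι) 0 = 0 := by
  rw [← mkD_cmp (0 : Dc ι)]
  rfl

lemma cmp_act (M : Matrix (Fin 2) (Fin 2) (ZMod 2)) (c : Fin 2) (η : Dc ι) :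
    cmp c (act M η) = M c 0 • cmp 0 η + M c 1 • cmp 1 η := by
  funext x
  refine Prod.ext ?_ ?_
  · change M.mulVec (η x).1 c = M c 0 * (η x).1 0 + M c 1 * (η x).1 1
    rw [Matrix.mulVec, dotProduct, Fin.sum_univ_two]
  · change M.mulVec (η x).2 c = M c 0 * (η x).2 0 + M c 1 * (η x).2 1
    rw [Matrix.mulVec, dotProduct, Fin.sum_univ_two]

/-- the symplectic form -/
noncomputable def BF (ι : Type) [Fintype ι] : LinearMap.BilinForm (ZMod 2) (XX ι) :=
  LinearMap.mk₂ (ZMod 2) (fun a b => ∑ x, ((a x).1 * (b x).2 + (a x).2 * (b x).1))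
    (by
      intro a a' b
      rw [← Finset.sum_add_distrib]
      refine Finset.sum_congr rfl fun x _ => ?_
      simp only [Pi.add_apply, Prod.fst_add, Prod.snd_add]
      ring)
    (by
      intro c a b
      rw [smul_eq_mul, Finset.mul_sum]
      refine Finset.sum_congr rfl fun x _ => ?_
      simp only [Pi.smul_apply, Prod.smul_fst, Prod.smul_snd, smul_eq_mul]
      ring)
    (by
      intro a b b'
      rw [← Finset.sum_add_distrib]
      refine Finset.sum_congr rfl fun x _ => ?_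
      simp only [Pi.add_apply, Prod.fst_add, Prod.snd_add]
      ring)
    (by
      intro c a b
      rw [smul_eq_mul, Finset.mul_sum]
      refine Finset.sum_congr rfl fun x _ => ?_
      simp only [Pi.smul_apply, Prod.smul_fst, Prod.smul_snd, smul_eq_mul]
      ring)

lemma BF_apply (a b : XX ι) : BF ι a b = ∑ x, ((a x).1 * (b x).2 + (a x).2 * (b x).1) := rfl

lemma two_z (z : ZMod 2) : z + z = 0 := CharTwo.add_self_eq_zero z

lemma BF_alt : (BF ι).IsAlt := by
  intro a
  rw [BF_apply]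
  refine Finset.sum_eq_zero fun x _ => ?_
  rw [mul_comm (a x).2 (a x).1]
  exact two_z _

lemma BF_nd : (BF ι).Nondegenerate := by
  have h0 : ∀ a : XX ι, (∀ b, BF ι a b = 0) → a = 0 := by
    intro a h
    funext x
    have h1 := h (Pi.single x (0, 1))
    have h2 := h (Pi.single x (1, 0))
    rw [BF_apply, Finset.sum_eq_single x] at h1 h2
    · rw [Pi.single_eq_same] at h1 h2
      refine Prod.ext ?_ ?_
      · simpa using h1
      · simpa using h2
    · intro y _ hy
      rw [Pi.single_eq_of_ne hy]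
      simp
    · intro hx
      exact absurd (Finset.mem_univ x) hx
    · intro y _ hy
      rw [Pi.single_eq_of_ne hy]
      simp
    · intro hx
      exact absurd (Finset.mem_univ x) hx
  refine ⟨h0, fun b h => h0 b fun a => ?_⟩
  rw [← BF_alt.neg_eq, h a, neg_zero]

lemma Qs_eq (ζ ζ' : Dc ι) : Qs univ ζ ζ' = BF ι (cmp 0 (ζ + ζ')) (cmp 1 (ζ + ζ')) := by
  rw [BF_apply, Qs]
  refine Finset.sum_congr rfl fun x _ => ?_
  change ((ζ + ζ') x).2 0 * ((ζ + ζ') x).1 1 + ((ζ + ζ') x).2 1 * ((ζ + ζ') x).1 0 =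
    ((ζ + ζ') x).1 0 * ((ζ + ζ') x).2 1 + ((ζ + ζ') x).2 0 * ((ζ + ζ') x).1 1
  ring

lemma rank_XX : Module.finrank (ZMod 2) (XX ι) = 2 * Fintype.card ι := by
  rw [Module.finrank_pi_fintype, Finset.sum_const, Module.finrank_prod, Module.finrank_self,
    Finset.card_univ, smul_eq_mul, mul_comm]

/-- the square of a subspace -/
noncomputable def sq (W : Submodule (ZMod 2) (XX ι)) : Finset (Dc ι) :=
  univ.filter fun η => cmp 0 η ∈ W ∧ cmp 1 η ∈ W

lemma mem_sq {W : Submodule (ZMod 2) (XX ι)} {η : Dc ι} :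
    η ∈ sq W ↔ cmp 0 η ∈ W ∧ cmp 1 η ∈ W := by
  rw [sq, Finset.mem_filter]
  exact ⟨fun h => h.2, fun h => ⟨Finset.mem_univ _, h⟩⟩

lemma card_sq (W : Submodule (ZMod 2) (XX ι)) :
    (sq W).card = 4 ^ Module.finrank (ZMod 2) W := by
  have e : {η // η ∈ sq W} ≃ W × W :=
    { toFun := fun η => (⟨cmp 0 η.1, (mem_sq.1 η.2).1⟩, ⟨cmp 1 η.1, (mem_sq.1 η.2).2⟩)
      invFun := fun p => ⟨mkD p.1.1 p.2.1, mem_sq.2 ⟨p.1.2, p.2.2⟩⟩
      left_inv := fun η => Subtype.ext (mkD_cmp η.1)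
      right_inv := fun p => rfl }
  have h1 : Nat.card {η // η ∈ sq W} = (sq W).card := by
    rw [Nat.card_eq_fintype_card, Fintype.card_coe]
  have h2 := Module.natCard_eq_pow_finrank (K := ZMod 2) (V := W)
  rw [Nat.card_zmod] at h2
  rw [← h1, Nat.card_congr e, Nat.card_prod, h2, ← mul_pow]
  norm_num

/-- good sets -/
def Gd (Z : Finset (Dc ι)) : Prop := MS univ Z ∧ Stb Z

lemma mem_Sp (ζ : Dc ι) : ζ ∈ Sp (univ : Finset ι) := by
  rw [Sp, Finset.mem_filter]
  exact ⟨Finset.mem_univ _, fun x hx => absurd (Finset.mem_univ x) hx⟩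

lemma Gd_sq (W : Lag (BF ι) (Fintype.card ι)) : Gd (sq W.1) := by
  obtain ⟨W, hr, hW⟩ := W
  refine ⟨⟨fun ζ _ => mem_Sp ζ, ?_, ?_⟩, ?_⟩
  · rw [card_sq, hr, Finset.card_univ]
  · intro ζ hζ ζ' hζ'
    rw [mem_sq] at hζ hζ'
    rw [Qs_eq]
    exact hW _ (W.add_mem hζ.1 hζ'.1) _ (W.add_mem hζ.2 hζ'.2)
  · intro M ζ hζ ζ' hζ'
    rw [mem_sq] at hζ hζ' ⊢
    rw [cmp_add, cmp_add, cmp_act, cmp_act]
    have h0 : cmp 0 (ζ + ζ') ∈ W := W.add_mem hζ.1 hζ'.1
    have h1 : cmp 1 (ζ + ζ') ∈ W := W.add_mem hζ.2 hζ'.2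
    exact ⟨W.add_mem hζ.1 (W.add_mem (W.smul_mem _ h0) (W.smul_mem _ h1)),
      W.add_mem hζ.2 (W.add_mem (W.smul_mem _ h0) (W.smul_mem _ h1))⟩

lemma zero_mem_sq (W : Submodule (ZMod 2) (XX ι)) : (0 : Dc ι) ∈ sq W :=
  mem_sq.2 ⟨W.zero_mem, W.zero_mem⟩

/-- the stable sets with `0` are squares -/
lemma exists_sq (hU : S_UNL) {Z : Finset (Dc ι)} (hZ : Gd Z) (h0 : (0 : Dc ι) ∈ Z) :
    ∃ W : Lag (BF ι) (Fintype.card ι), sq W.1 = Z := by
  obtain ⟨hM, hS⟩ := hZ
  have h3 := ((hU ι univ).2 Z hM).1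
  have hadd : ∀ ζ ∈ Z, ∀ ζ' ∈ Z, ζ + ζ' ∈ Z := by
    intro ζ h ζ' h'
    have := h3 ζ h ζ' h' 0 h0
    rwa [add_zero] at this
  have hact : ∀ (M : Matrix (Fin 2) (Fin 2) (ZMod 2)), ∀ ζ ∈ Z, act M ζ ∈ Z := by
    intro M ζ h
    have := hS M 0 h0 ζ h
    rwa [zero_add, zero_add] at this
  have hactE : ∀ (M : Matrix (Fin 2) (Fin 2) (ZMod 2)) (a b : XX ι),
      act M (mkD a b) = mkD (M 0 0 • a + M 0 1 • b) (M 1 0 • a + M 1 1 • b) := by
    intro M a b
    rw [← mkD_cmp (act M (mkD a b)), cmp_act, cmp_act, cmp_mkD0, cmp_mkD1]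
  let W : Submodule (ZMod 2) (XX ι) :=
    { carrier := {a | mkD a 0 ∈ Z}
      add_mem' := by
        intro a b ha hb
        change mkD (a + b) 0 ∈ Z
        have := hadd _ ha _ hb
        rwa [mkD_add, add_zero] at this
      zero_mem' := by
        change mkD 0 0 ∈ Z
        rw [mkD_zero]
        exact h0
      smul_mem' := by
        intro c a ha
        change mkD (c • a) 0 ∈ Z
        have := hact (!![c, 0; 0, 0]) _ ha
        rw [hactE] at this
        convert this using 2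
        · simp
        · simp }
  have hW : ∀ a, a ∈ W ↔ mkD a 0 ∈ Z := fun a => Iff.rfl
  have h01 : ∀ a, mkD a 0 ∈ Z → mkD 0 a ∈ Z := by
    intro a ha
    have := hact (!![0, 0; 1, 0]) _ ha
    rw [hactE] at this
    convert this using 2
    · simp
    · simp
  have hEq : sq W = Z := by
    ext η
    rw [mem_sq, hW, hW]
    constructor
    · rintro ⟨ha, hb⟩
      have := hadd _ ha _ (h01 _ hb)
      rw [mkD_add, add_zero, zero_add, mkD_cmp] at this
      exact this
    · intro h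
      constructor
      · have := hact (!![1, 0; 0, 0]) _ h
        rw [← mkD_cmp η, hactE] at this
        convert this using 2
        · simp
        · simp
      · have := hact (!![0, 1; 0, 0]) _ h
        rw [← mkD_cmp η, hactE] at this
        convert this using 2
        · simp
        · simp
  have hr : Module.finrank (ZMod 2) W = Fintype.card ι := by
    have h1 := card_sq W
    rw [hEq, hM.2.1, Finset.card_univ] at h1
    exact (Nat.pow_right_injective (by norm_num : 2 ≤ 4) h1).symm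
  refine ⟨⟨W, hr, ?_⟩, hEq⟩
  intro a ha b hb
  have hab : mkD a b ∈ Z := by
    rw [← hEq, mem_sq]
    exact ⟨ha, hb⟩
  have := hM.2.2 _ hab _ h0
  rw [Qs_eq, add_zero, cmp_mkD0, cmp_mkD1] at this
  exact this

lemma sq_inj {W W' : Submodule (ZMod 2) (XX ι)} (h : sq W = sq W') : W = W' := by
  ext a
  have h1 : mkD a 0 ∈ sq W ↔ mkD a 0 ∈ sq W' := by rw [h]
  rw [mem_sq, mem_sq, cmp_mkD0, cmp_mkD1] at h1
  constructor
  · intro ha
    exact (h1.1 ⟨ha, W.zero_mem⟩).1
  · intro ha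
    exact (h1.2 ⟨ha, W'.zero_mem⟩).1

lemma card_zero (hU : S_UNL) :
    (univ.filter fun Z : Finset (Dc ι) => Gd Z ∧ (0 : Dc ι) ∈ Z).card =
      ∏ i ∈ range (Fintype.card ι), (2 ^ (i + 1) + 1) := by
  rw [← card_lag (BF_alt (ι := ι)) BF_nd (Fintype.card ι) rank_XX]
  have e : Lag (BF ι) (Fintype.card ι) ≃
      {Z // Z ∈ univ.filter fun Z : Finset (Dc ι) => Gd Z ∧ (0 : Dc ι) ∈ Z} := by
    refine Equiv.ofBijective (fun W => ⟨sq W.1, Finset.mem_filter.2
      ⟨Finset.mem_univ _, Gd_sq W, zero_mem_sq _⟩⟩) ⟨?_, ?_⟩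
    · intro W W' h
      exact Subtype.ext (sq_inj (congrArg Subtype.val h))
    · rintro ⟨Z, hZ⟩
      obtain ⟨W, hW⟩ := exists_sq hU (Finset.mem_filter.1 hZ).2.1 (Finset.mem_filter.1 hZ).2.2
      exact ⟨W, Subtype.ext hW⟩
  rw [Nat.card_congr e, Nat.card_eq_fintype_card, Fintype.card_coe]

/-- translation -/
noncomputable def tr (z : Dc ι) (Z : Finset (Dc ι)) : Finset (Dc ι) := Z.image fun ζ => ζ + z

lemma two_D (z : Dc ι) : z + z = 0 := by
  funext x
  refine Prod.ext ?_ ?_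
  · funext c
    exact two_z _
  · funext c
    exact two_z _

lemma mem_tr {z : Dc ι} {Z : Finset (Dc ι)} {ζ : Dc ι} : ζ ∈ tr z Z ↔ ζ + z ∈ Z := by
  rw [tr, Finset.mem_image]
  constructor
  · rintro ⟨η, hη, rfl⟩
    rwa [add_assoc, two_D, add_zero]
  · intro h
    exact ⟨ζ + z, h, by rw [add_assoc, two_D, add_zero]⟩

lemma tr_tr (z : Dc ι) (Z : Finset (Dc ι)) : tr z (tr z Z) = Z := by
  ext ζ
  rw [mem_tr, mem_tr, add_assoc, two_D, add_zero]

lemma Gd_tr (z : Dc ι) {Z : Finset (Dc ι)} (hZ : Gd Z) : Gd (tr z Z) := by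
  have hs : ∀ ζ ζ' : Dc ι, (ζ + z) + (ζ' + z) = ζ + ζ' := by
    intro ζ ζ'
    rw [add_add_add_comm, two_D, add_zero]
  refine ⟨⟨fun ζ _ => mem_Sp ζ, ?_, ?_⟩, ?_⟩
  · rw [tr, Finset.card_image_of_injective _ (add_left_injective z)]
    exact hZ.1.2.1
  · intro ζ hζ ζ' hζ'
    rw [mem_tr] at hζ hζ'
    have := hZ.1.2.2 _ hζ _ hζ'
    rw [Qs_eq, hs] at this
    rw [Qs_eq]
    exact this
  · intro M ζ hζ ζ' hζ'
    rw [mem_tr] at hζ hζ' ⊢
    have := hZ.2 M _ hζ _ hζ'
    rw [hs] at this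
    rwa [add_right_comm]

/-- GK-COUNT -/
theorem t_COUNT : S_COUNT := by
  intro hU ι _
  have hcard : ((univ : Finset (Finset (Dc ι))).filter fun Z => Gd Z).card * 4 ^ Fintype.card ι =
      16 ^ Fintype.card ι * ∏ i ∈ range (Fintype.card ι), (2 ^ (i + 1) + 1) := by
    have h1 := Finset.sum_card_bipartiteAbove_eq_sum_card_bipartiteBelow
      (s := (univ : Finset (Finset (Dc ι))).filter fun Z => Gd Z)
      (t := (univ : Finset (Dc ι))) (fun Z z => z ∈ Z)
    have h2 : ∀ Z ∈ (univ : Finset (Finset (Dc ι))).filter (fun Z => Gd Z),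
        (Finset.bipartiteAbove (fun (Z : Finset (Dc ι)) z => z ∈ Z)
          (univ : Finset (Dc ι)) Z).card = 4 ^ Fintype.card ι := by
      intro Z hZ
      have h3 := (Finset.mem_filter.1 hZ).2.1.2.1
      rw [Finset.card_univ] at h3
      rw [← h3]
      congr 1
      ext z
      rw [Finset.mem_bipartiteAbove]
      exact ⟨fun h => h.2, fun h => ⟨Finset.mem_univ _, h⟩⟩
    have h4 : ∀ z ∈ (univ : Finset (Dc ι)),
        (Finset.bipartiteBelow (fun (Z : Finset (Dc ι)) z => z ∈ Z)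
          ((univ : Finset (Finset (Dc ι))).filter fun Z => Gd Z) z).card =
        ∏ i ∈ range (Fintype.card ι), (2 ^ (i + 1) + 1) := by
      intro z _
      rw [← card_zero hU]
      refine Finset.card_bij' (fun Z _ => tr z Z) (fun Z _ => tr z Z) ?_ ?_ ?_ ?_
      · intro Z hZ
        rw [Finset.mem_bipartiteBelow, Finset.mem_filter] at hZ
        rw [Finset.mem_filter]
        refine ⟨Finset.mem_univ _, Gd_tr z hZ.1.2, ?_⟩
        rw [mem_tr, zero_add]
        exact hZ.2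
      · intro Z hZ
        rw [Finset.mem_filter] at hZ
        rw [Finset.mem_bipartiteBelow, Finset.mem_filter]
        refine ⟨⟨Finset.mem_univ _, Gd_tr z hZ.2.1⟩, ?_⟩
        rw [mem_tr, two_D]
        exact hZ.2.2
      · intro Z _
        exact tr_tr z Z
      · intro Z _
        exact tr_tr z Z
    rw [Finset.sum_congr rfl h2, Finset.sum_congr rfl h4, Finset.sum_const, Finset.sum_const,
      smul_eq_mul, smul_eq_mul, Finset.card_univ] at h1
    rw [h1]
    congr 1
    have h8 : Fintype.card (V × V) = 16 := by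
      rw [Fintype.card_prod, Fintype.card_fun, ZMod.card, Fintype.card_fin]
      norm_num
    rw [Fintype.card_fun, h8]
  have h5 : ((univ : Finset (Finset (Dc ι))).filter fun Z => Gd Z).card =
      4 ^ Fintype.card ι * ∏ i ∈ range (Fintype.card ι), (2 ^ (i + 1) + 1) := by
    have h6 : 0 < 4 ^ Fintype.card ι := by positivity
    refine Nat.eq_of_mul_eq_mul_right h6 ?_
    rw [hcard, mul_right_comm, ← mul_pow]
    norm_num
  have h7 : ((univ.filter fun Z : Finset (Dc ι) => MS univ Z ∧ Stb Z).card : ℝ) =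
      (((univ : Finset (Finset (Dc ι))).filter fun Z => Gd Z).card : ℝ) := by
    congr 2
    ext Z
    rw [Finset.mem_filter, Finset.mem_filter]
    exact Iff.rfl
  rw [h7, h5, mom]
  push_cast
  congr 1
  refine Finset.prod_congr rfl fun i _ => ?_
  rw [add_comm]

end Pool.Agent.N814.GK
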